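import Mathlib

/-!
The function field analogue of Jacobi's periodicity question fails in characteristic two.
Laurent series are taken in `X = 1 / t`.
-/

set_option autoImplicit false

namespace Pool.Agent.Results.MP_d07120_nt.FunctionField

open WithZero Polynomial

/-- The polynomial part in `t = 1 / X` of a Laurent series in `X`. -/
noncomputable def ipart {k : Type} [Field k] (f : LaurentSeries k) : LaurentSeries k :=
  ⟨fun n => if n ≤ 0 then f.coeff n else 0,
    f.isPWO_support'.mono fun n hn h0 => hn (by simp [h0])⟩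

/-- The Jacobi-Perron map. -/
noncomputable def step {k : Type} [Field k] (q : LaurentSeries k × LaurentSeries k) :
    LaurentSeries k × LaurentSeries k :=
  (q.2 / q.1 - ipart (q.2 / q.1), 1 / q.1 - ipart (1 / q.1))

/-- The Jacobi-Perron digit. -/
noncomputable def digit {k : Type} [Field k] (q : LaurentSeries k × LaurentSeries k) :
    LaurentSeries k × LaurentSeries k :=
  (ipart (q.2 / q.1), ipart (1 / q.1))

section
variable {k : Type} [Field k]

/-- polynomials in `t` -/
def Pol (a : LaurentSeries k) : Prop := ∀ n : ℤ, 0 < n → a.coeff n = 0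

theorem Pol.zero : Pol (0 : LaurentSeries k) := fun _ _ => rfl

theorem Pol.single {m : ℤ} (hm : m ≤ 0) : Pol (HahnSeries.single m (1 : k)) := fun n hn =>
  HahnSeries.coeff_single_of_ne (by omega)

theorem Pol.one : Pol (1 : LaurentSeries k) := Pol.single le_rfl

theorem Pol.add {a b : LaurentSeries k} (ha : Pol a) (hb : Pol b) : Pol (a + b) := fun n hn => by
  rw [HahnSeries.coeff_add, ha n hn, hb n hn, add_zero]

theorem Pol.mul {a b : LaurentSeries k} (ha : Pol a) (hb : Pol b) : Pol (a * b) := fun n hn => by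
  by_contra h
  obtain ⟨i, hi, j, hj, e⟩ := HahnSeries.support_mul_subset (x := a) (y := b) h
  have h1 : i ≤ 0 := not_lt.1 fun c => hi (ha i c)
  have h2 : j ≤ 0 := not_lt.1 fun c => hj (hb j c)
  have e' : i + j = n := e
  omega

theorem Pol.pow {a : LaurentSeries k} (ha : Pol a) (m : ℕ) : Pol (a ^ m) := by
  induction m with
  | zero => rw [pow_zero]; exact Pol.one
  | succ m ih => rw [pow_succ]; exact ih.mul ha

theorem ipart_add {a r : LaurentSeries k} (ha : Pol a) (hr : Valued.v r ≤ exp (-1 : ℤ)) :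
    ipart (a + r) = a := by
  have h := (LaurentSeries.valuation_le_iff_coeff_lt_eq_zero k (D := 1)).1 hr
  ext n
  change (if n ≤ 0 then (a + r).coeff n else 0) = a.coeff n
  split_ifs with hn
  · rw [HahnSeries.coeff_add, h n (by omega), add_zero]
  · exact (ha n (by omega)).symm

theorem step_eq {y z a b u w : LaurentSeries k} (h1 : z / y = b + u) (h2 : 1 / y = a + w)
    (ha : Pol a) (hb : Pol b) (hu : Valued.v u ≤ exp (-1 : ℤ)) (hw : Valued.v w ≤ exp (-1 : ℤ)) :
    step (y, z) = (u, w) ∧ (digit (y, z)).2 = a := by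
  unfold step digit
  simp only [h1, h2, ipart_add ha hw, ipart_add hb hu, add_sub_cancel_left, and_self]

theorem ne_of_val {f : LaurentSeries k} {m : ℤ} (h : Valued.v f = exp m) : f ≠ 0 := by
  rintro rfl
  rw [map_zero] at h
  exact exp_ne_zero h.symm

theorem val_add {f g : LaurentSeries k} {m n : ℤ} (hf : Valued.v f = exp m)
    (hg : Valued.v g = exp n) (h : n < m) : Valued.v (f + g) = exp m := by
  rw [← hf]
  refine Valuation.map_add_eq_of_lt_left _ ?_
  rw [hf, hg]; exact exp_lt_exp.2 h

theorem val_div {f g : LaurentSeries k} {m n : ℤ} (hf : Valued.v f = exp m)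
    (hg : Valued.v g = exp n) : Valued.v (f / g) = exp (m - n) := by
  rw [map_div₀, hf, hg, exp_sub]

theorem val_mul {f g : LaurentSeries k} {m n : ℤ} (hf : Valued.v f = exp m)
    (hg : Valued.v g = exp n) : Valued.v (f * g) = exp (m + n) := by
  rw [map_mul, hf, hg, exp_add]

theorem val_pow {f : LaurentSeries k} {m : ℤ} (hf : Valued.v f = exp m) (n : ℕ) :
    Valued.v (f ^ n) = exp (n * m) := by
  rw [map_pow, hf, ← exp_nsmul, nsmul_eq_mul]

theorem small {f : LaurentSeries k} {m : ℤ} (hf : Valued.v f = exp m) (h : m < 0) :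
    Valued.v f ≤ exp (-1 : ℤ) := by
  rw [hf]; exact exp_le_exp.2 (by omega)

/-- Three steps of the algorithm copy one step of a one-dimensional continued fraction. -/
theorem three {P u u' u'' c c' : LaurentSeries k} {m m' m'' : ℤ} (h2 : (2 : LaurentSeries k) = 0)
    (hP : Valued.v P = exp (2 : ℤ)) (pP : Pol P) (pc : Pol c) (pc' : Pol c')
    (hu : Valued.v u = exp m) (hu' : Valued.v u' = exp m') (hu'' : Valued.v u'' = exp m'')
    (h0 : m ≤ 0) (h1 : m' + 2 < m) (h1' : m'' < m')
    (I : P = P * c * u + u * u') (I' : P = P * c' * u' + u' * u'') :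
    step (step (step (u, (u + u') / P))) = (u', (u' + u'') / P) ∧
      (digit (u, (u + u') / P)).2 = c := by
  have hs := val_add hu hu' (by omega)
  have hs' := val_add hu' hu'' h1'
  have n0 := ne_of_val hP
  have n1 := ne_of_val hu
  have n2 := ne_of_val hu'
  have n3 := ne_of_val hs
  have J : 1 / u = c + u' / P := by field_simp; linear_combination I
  have J' : 1 / u' = c' + u'' / P := by field_simp; linear_combination I'
  obtain ⟨s1, d1⟩ := step_eq (y := u) (z := (u + u') / P) (a := c) (b := 0)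
    (u := (u + u') / P / u) (w := u' / P) (zero_add _).symm J pc Pol.zero
    (small (val_div (val_div hs hP) hu) (by omega)) (small (val_div hu' hP) (by omega))
  obtain ⟨s2, -⟩ := step_eq (y := (u + u') / P / u) (z := u' / P) (a := P) (b := 0)
    (u := u * u' / (u + u')) (w := P * u' / (u + u')) (by field_simp; ring)
    (by field_simp; linear_combination (-u') * h2) pP Pol.zero
    (small (val_div (val_mul hu hu') hs) (by omega)) (small (val_div (val_mul hP hu') hs) (by omega))
  obtain ⟨s3, -⟩ := step_eq (y := u * u' / (u + u')) (z := P * u' / (u + u')) (a := c + c')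
    (b := P * c) (u := u') (w := (u' + u'') / P) (by field_simp; linear_combination I)
    (by
      have e : 1 / (u * u' / (u + u')) = 1 / u + 1 / u' := by field_simp; ring
      rw [e, J, J']; ring)
    (pc.add pc') (pP.mul pc) (small hu' (by omega)) (small (val_div hs' hP) (by omega))
  exact ⟨by rw [s1, s2, s3], d1⟩

end

/-- exponents `0, 0, 1, 2, 5, 10, ...` -/
def ex : ℕ → ℕ
  | 0 => 0
  | j + 1 => 2 * ex j + j % 2

/-- the complete quotients -/
noncomputable def xi {F : Type} [Field F] (P x : F) : ℕ → F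
  | 0 => x
  | j + 1 => xi P x j ^ 2 / P ^ (j % 2)

theorem ex_ge (i : ℕ) : 2 ≤ ex (3 + i) ∧ ex (3 + i) + 2 ≤ ex (3 + i + 1) := by
  induction i with
  | zero => decide
  | succ i ih =>
    have e : ex (3 + (i + 1) + 1) = 2 * ex (3 + i + 1) + (3 + i + 1) % 2 := rfl
    have e' : 3 + (i + 1) = 3 + i + 1 := rfl
    rw [e, e']
    omega

theorem xi_id {F : Type} [Field F] {P x : F} (h2 : (2 : F) = 0) (hP : P ≠ 0)
    (hx : x ^ 3 + P * x + P = 0) (j : ℕ) :
    P = P * P ^ ex j * xi P x j + xi P x j * xi P x (j + 1) := by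
  induction j with
  | zero =>
    simp only [ex, xi, pow_zero, Nat.zero_mod, div_one]
    linear_combination P * h2 - hx
  | succ j ih =>
    have e1 : xi P x (j + 1) * P ^ (j % 2) = xi P x j ^ 2 := by
      rw [xi]; field_simp
    have e2 : xi P x (j + 1 + 1) * P ^ ((j + 1) % 2) = xi P x (j + 1) ^ 2 := by
      rw [xi]; field_simp
    have e3 : P ^ (j % 2) * P ^ ((j + 1) % 2) = P := by
      rw [← pow_add, show j % 2 + (j + 1) % 2 = 1 by omega, pow_one]
    have e4 : P ^ ex (j + 1) = (P ^ ex j) ^ 2 * P ^ (j % 2) := by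
      rw [ex, pow_add, mul_comm 2, pow_mul]
    rw [e4]
    generalize xi P x (j + 1 + 1) = w at *
    generalize xi P x (j + 1) = v at *
    generalize xi P x j = u at *
    generalize P ^ ex j = c at *
    generalize P ^ (j % 2) = A at *
    generalize P ^ ((j + 1) % 2) = B at *
    refine mul_left_cancel₀ hP ?_
    linear_combination (P + (P * c * u + u * v)) * ih + (P * c * u * (u * v)) * h2 -
      (P ^ 2 * c ^ 2 + v ^ 2) * e1 - (v * A) * e2 + (v * w) * e3

theorem xi_val {k : Type} [Field k] {P x : LaurentSeries k} (hP : Valued.v P = exp (2 : ℤ))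
    (hx : Valued.v x = exp (0 : ℤ)) (j : ℕ) :
    Valued.v (xi P x j) = exp (-(2 * (ex j : ℤ))) := by
  induction j with
  | zero => simpa [xi, ex] using hx
  | succ j ih =>
    rw [xi, val_div (val_pow ih 2) (val_pow hP (j % 2)), ex]
    congr 1; push_cast; ring

theorem orbit {k : Type} [Field k] {P x : LaurentSeries k} (h2 : (2 : LaurentSeries k) = 0)
    (hP : Valued.v P = exp (2 : ℤ)) (pP : Pol P) (hx : Valued.v x = exp (0 : ℤ))
    (he : x ^ 3 + P * x + P = 0) :
    ¬ ∃ N p : ℕ, 0 < p ∧ ∀ n : ℕ, N ≤ n →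
      digit (step^[n + p] (xi P x 3, (xi P x 3 + xi P x 4) / P)) =
        digit (step^[n] (xi P x 3, (xi P x 3 + xi P x 4) / P)) := by
  have key : ∀ i : ℕ, step (step (step (xi P x (3 + i), (xi P x (3 + i) + xi P x (3 + i + 1)) / P))) =
      (xi P x (3 + i + 1), (xi P x (3 + i + 1) + xi P x (3 + i + 1 + 1)) / P) ∧
      (digit (xi P x (3 + i), (xi P x (3 + i) + xi P x (3 + i + 1)) / P)).2 = P ^ ex (3 + i) := by
    intro i
    have g1 := ex_ge i
    have g2 := ex_ge (i + 1)
    rw [show 3 + (i + 1) = 3 + i + 1 from rfl] at g2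
    exact three h2 hP pP (pP.pow _) (pP.pow _) (xi_val hP hx _) (xi_val hP hx _) (xi_val hP hx _)
      (by omega) (by omega) (by omega) (xi_id h2 (ne_of_val hP) he _) (xi_id h2 (ne_of_val hP) he _)
  have it : ∀ i : ℕ, step^[3 * i] (xi P x 3, (xi P x 3 + xi P x 4) / P) =
      (xi P x (3 + i), (xi P x (3 + i) + xi P x (3 + i + 1)) / P) := by
    intro i
    induction i with
    | zero => rfl
    | succ i ih =>
      rw [show 3 * (i + 1) = 3 * i + 1 + 1 + 1 from rfl, Function.iterate_succ_apply',
        Function.iterate_succ_apply', Function.iterate_succ_apply', ih]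
      exact (key i).1
  have mono : StrictMono fun i : ℕ => ex (3 + i) :=
    strictMono_nat_of_lt_succ fun i => by
      have := (ex_ge i).2
      rw [show 3 + (i + 1) = 3 + i + 1 from rfl]; omega
  rintro ⟨N, p, hp, h⟩
  have e := (h (3 * N + p + p) (by omega)).trans
    ((h (3 * N + p) (by omega)).trans (h (3 * N) (by omega)))
  rw [show 3 * N + p + p + p = 3 * (N + p) by ring, it, it] at e
  have e2 := congrArg Prod.snd e
  rw [(key _).2, (key _).2] at e2
  have e3 := congrArg Valued.v e2
  rw [val_pow hP, val_pow hP, exp_inj] at e3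
  have := mono (show N < N + p by omega)
  simp only at this
  omega

section
variable (k : Type) [Field k]

/-- `t = 1 / X` -/
noncomputable def tt : RatFunc k := (RatFunc.X)⁻¹

/-- the cyclic cubic -/
noncomputable def cub : (RatFunc k)[X] := X ^ 3 + C (tt k) * X ^ 2 + C (tt k + 1) * X + 1

theorem cub_monic : (cub k).Monic := by unfold cub; monicity!

theorem cub_deg : (cub k).natDegree = 3 := by unfold cub; compute_degree!

theorem aeval_cub {A : Type} [CommRing A] [Algebra (RatFunc k) A] (s : A) :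
    aeval s (cub k) = s ^ 3 + algebraMap _ A (tt k) * s ^ 2 + (algebraMap _ A (tt k) + 1) * s + 1 := by
  simp [cub]

theorem two_eq [CharP k 2] (A : Type) [CommRing A] [Algebra (RatFunc k) A] : (2 : A) = 0 := by
  have h : (2 : k) = 0 := by exact_mod_cast CharP.cast_eq_zero k 2
  have h1 : (2 : RatFunc k) = 0 := by rw [← map_ofNat (algebraMap k (RatFunc k)) 2, h, map_zero]
  rw [← map_ofNat (algebraMap (RatFunc k) A) 2, h1, map_zero]

theorem no_poly [CharP k 2] (g : k[X]) : g ^ 3 + g ^ 2 + (X + X ^ 2) * g + X ^ 3 ≠ 0 := by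
  intro h
  have h2 : (2 : k) = 0 := by exact_mod_cast CharP.cast_eq_zero k 2
  have hd : g.natDegree ≤ 1 := by
    by_contra hc
    have e : g ^ 3 = -(g ^ 2 + (X + X ^ 2) * g + X ^ 3) := by linear_combination h
    have d1 : (g ^ 2).natDegree ≤ 2 * g.natDegree := natDegree_pow_le
    have d0 : (X + X ^ 2 : k[X]).natDegree ≤ 2 := by compute_degree
    have d2 : ((X + X ^ 2) * g).natDegree ≤ 2 + g.natDegree :=
      natDegree_mul_le.trans (by omega)
    have d3 : (X ^ 3 : k[X]).natDegree = 3 := natDegree_X_pow 3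
    have d4 := natDegree_add_le (g ^ 2) ((X + X ^ 2) * g)
    have d5 := natDegree_add_le (g ^ 2 + (X + X ^ 2) * g) (X ^ 3 : k[X])
    have d6 := congrArg natDegree e
    rw [natDegree_neg, natDegree_pow] at d6
    omega
  obtain ⟨a, b, rfl⟩ := exists_eq_X_add_C_of_natDegree_le_one hd
  have e : (C a * X + C b) ^ 3 + (C a * X + C b) ^ 2 + (X + X ^ 2) * (C a * X + C b) + X ^ 3 =
      C (a ^ 3 + a + 1) * X ^ 3 + C (3 * a ^ 2 * b + a ^ 2 + a + b) * X ^ 2 +
        C (3 * a * b ^ 2 + 2 * a * b + b) * X + C (b ^ 3 + b ^ 2) := by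
    simp only [map_add, map_mul, map_pow, map_one, map_ofNat]; ring
  rw [e] at h
  have c3 := congrArg (fun q => q.coeff 3) h
  have c2 := congrArg (fun q => q.coeff 2) h
  have c1 := congrArg (fun q => q.coeff 1) h
  have c0 := congrArg (fun q => q.coeff 0) h
  simp only [coeff_add, coeff_C_mul, coeff_X_pow, coeff_X, coeff_C, coeff_zero] at c3 c2 c1 c0
  norm_num at c3 c2 c1 c0
  have hb : b * (b * (b + 1)) = 0 := by linear_combination c0
  have key : a * (a + 1) = 0 := by
    rcases mul_eq_zero.1 hb with h0 | h0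
    · rw [h0] at c2; linear_combination c2
    rcases mul_eq_zero.1 h0 with h0 | h0
    · rw [h0] at c2; linear_combination c2
    · have hb1 : b = -1 := by linear_combination h0
      rw [hb1] at c1
      have : a = 1 := by linear_combination c1
      rw [this]; linear_combination h2
  exact one_ne_zero (α := k) (by linear_combination c3 - (a - 1) * key - a * h2)

theorem cub_irr [CharP k 2] : Irreducible (cub k) := by
  rw [(cub_monic k).irreducible_iff_roots_eq_zero_of_degree_le_three (by rw [cub_deg]; norm_num)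
    (by rw [cub_deg]), Multiset.eq_zero_iff_forall_notMem]
  intro s hs
  have h1 : aeval s (cub k) = 0 := by
    rw [coe_aeval_eq_eval]; exact ((mem_roots (cub_monic k).ne_zero).1 hs)
  rw [aeval_cub, Algebra.algebraMap_self, RingHom.id_apply, tt] at h1
  have hX : (RatFunc.X : RatFunc k) ≠ 0 := RatFunc.X_ne_zero
  have h2 : (RatFunc.X * s) ^ 3 + (RatFunc.X * s) ^ 2 +
      (RatFunc.X + RatFunc.X ^ 2) * (RatFunc.X * s) + RatFunc.X ^ 3 = 0 := by
    field_simp at h1
    linear_combination RatFunc.X ^ 2 * h1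
  have hm : (X ^ 3 + X ^ 2 + C (X + X ^ 2) * X + C (X ^ 3) : k[X][X]).Monic := by monicity!
  obtain ⟨g, hg, -⟩ := exists_integer_of_is_root_of_monic (r := RatFunc.X * s) hm
    (by simpa using h2)
  refine no_poly k g (IsFractionRing.injective k[X] (RatFunc k) ?_)
  rw [hg] at h2
  simpa using h2

end

open scoped RatFunc

section
variable (k : Type) [Field k]

theorem tt_eq : algebraMap (RatFunc k) (LaurentSeries k) (tt k) = HahnSeries.single (-1) 1 := by
  rw [tt, map_inv₀, RatFunc.coe_X, HahnSeries.inv_single, inv_one]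

theorem tt_val : Valued.v (algebraMap (RatFunc k) (LaurentSeries k) (tt k)) = exp (1 : ℤ) := by
  rw [tt_eq, LaurentSeries.valuation_single_zpow, neg_neg]

theorem exists_root [CharP k 2] : ∃ s : LaurentSeries k, aeval s (cub k) = 0 ∧
    Valued.v (s + algebraMap _ _ (tt k)) ≤ 1 := by
  have h2 := two_eq k (LaurentSeries k)
  have h2' : (2 : PowerSeries k) = 0 := by
    have h : (2 : k) = 0 := by exact_mod_cast CharP.cast_eq_zero k 2
    rw [← map_ofNat (algebraMap k (PowerSeries k)) 2, h, map_zero]
  have hm : (X ^ 3 + X ^ 2 + C (PowerSeries.X + PowerSeries.X ^ 2) * X + C (PowerSeries.X ^ 3) :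
      (PowerSeries k)[X]).Monic := by monicity!
  obtain ⟨a, ha, hb⟩ := HenselianRing.is_henselian (I := Ideal.span {(PowerSeries.X : PowerSeries k)})
    _ hm 1
    (Ideal.mem_span_singleton.2 ⟨1 + PowerSeries.X + PowerSeries.X ^ 2, by
      simp only [eval_add, eval_pow, eval_X, eval_mul, eval_C]; linear_combination h2'⟩)
    (by
      have e : Ideal.Quotient.mk (Ideal.span {(PowerSeries.X : PowerSeries k)})
          ((derivative (X ^ 3 + X ^ 2 + C (PowerSeries.X + PowerSeries.X ^ 2) * X +
            C (PowerSeries.X ^ 3) : (PowerSeries k)[X])).eval 1) = Ideal.Quotient.mk _ 1 := by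
        refine Ideal.Quotient.eq.2 (Ideal.mem_span_singleton.2 ⟨1 + PowerSeries.X, ?_⟩)
        simp only [derivative_add, derivative_X_pow, derivative_C_mul, derivative_X, derivative_C,
          eval_add, eval_pow, eval_X, eval_mul, eval_C, eval_one, eval_zero]
        push_cast
        linear_combination 2 * h2'
      rw [e, map_one]; exact isUnit_one)
  obtain ⟨h, hh⟩ := Ideal.mem_span_singleton.1 hb
  have e1 : a ^ 3 + a ^ 2 + (PowerSeries.X + PowerSeries.X ^ 2) * a + PowerSeries.X ^ 3 = 0 := by
    simpa using ha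
  have e2 := congrArg (HahnSeries.ofPowerSeries ℤ k) e1
  have e3 := congrArg (HahnSeries.ofPowerSeries ℤ k) hh
  simp only [map_add, map_mul, map_pow, map_zero, map_sub, map_one,
    HahnSeries.ofPowerSeries_X] at e2 e3
  have e4 : algebraMap (RatFunc k) (LaurentSeries k) (tt k) * HahnSeries.single 1 1 = 1 := by
    rw [tt_eq, HahnSeries.single_mul_single]; simp
  refine ⟨algebraMap _ _ (tt k) * HahnSeries.ofPowerSeries ℤ k a, ?_, ?_⟩
  · rw [aeval_cub]
    generalize algebraMap (RatFunc k) (LaurentSeries k) (tt k) = t at *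
    generalize HahnSeries.ofPowerSeries ℤ k a = w at *
    generalize (HahnSeries.single 1 1 : LaurentSeries k) = u at *
    linear_combination t ^ 3 * e2 -
      (t ^ 2 * w + t * w * (t * u + 1) + ((t * u) ^ 2 + t * u + 1)) * e4
  · refine (LaurentSeries.val_le_one_iff_eq_coe k _).2 ⟨h, ?_⟩
    change HahnSeries.ofPowerSeries ℤ k h = _
    linear_combination (-algebraMap (RatFunc k) (LaurentSeries k) (tt k)) * e3 -
      HahnSeries.ofPowerSeries ℤ k h * e4 - algebraMap (RatFunc k) (LaurentSeries k) (tt k) * h2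

theorem card_three [CharP k 2] {s : LaurentSeries k} (hs : aeval s (cub k) = 0)
    (hv : Valued.v s = exp (1 : ℤ)) :
    Nat.card (AdjoinRoot (cub k) →ₐ[RatFunc k] LaurentSeries k) = 3 := by
  classical
  have h2 := two_eq k (LaurentSeries k)
  have one : Valued.v (1 : LaurentSeries k) = exp (0 : ℤ) := by simp
  have hv1 := val_add hv one (by norm_num)
  have n0 := ne_of_val hv
  have n1 := ne_of_val hv1
  have v2 := val_div one hv1
  have v3 := val_div hv1 hv
  have r2 : aeval (1 / (s + 1)) (cub k) = 0 := by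
    rw [aeval_cub] at hs ⊢
    field_simp
    linear_combination hs + (algebraMap (RatFunc k) (LaurentSeries k) (tt k) * (1 + s) +
      1 + 2 * s + 2 * s ^ 2) * h2
  have r3 : aeval ((s + 1) / s) (cub k) = 0 := by
    rw [aeval_cub] at hs ⊢
    field_simp
    linear_combination hs + (algebraMap (RatFunc k) (LaurentSeries k) (tt k) * (s ^ 3 + s ^ 2) +
      s + 2 * s ^ 2 + s ^ 3) * h2
  have d : ∀ {f g : LaurentSeries k} {m n : ℤ}, Valued.v f = exp m → Valued.v g = exp n → m ≠ n →
      f ≠ g := fun hf hg h e => h (exp_inj.1 (hf.symm.trans (e ▸ hg)))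
  have h0 := (cub_monic k).ne_zero
  rw [Nat.card_congr (AdjoinRoot.equiv (LaurentSeries k) (RatFunc k) (cub k) h0),
    Nat.subtype_card ((cub k).aroots (LaurentSeries k)).toFinset fun _ => Multiset.mem_toFinset]
  refine le_antisymm ((Multiset.toFinset_card_le _).trans ((card_roots' _).trans ?_)) ?_
  · rw [(cub_monic k).natDegree_map, cub_deg]
  · have c3 : ({s, 1 / (s + 1), (s + 1) / s} : Finset (LaurentSeries k)).card = 3 :=
      Finset.card_eq_three.2 ⟨_, _, _, d hv v2 (by norm_num), d hv v3 (by norm_num),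
        d v2 v3 (by norm_num), rfl⟩
    rw [← c3]
    refine Finset.card_le_card fun w hw => Multiset.mem_toFinset.2 (mem_aroots.2 ⟨h0, ?_⟩)
    simp only [Finset.mem_insert, Finset.mem_singleton] at hw
    rcases hw with rfl | rfl | rfl <;> assumption

end

theorem indep {F K : Type} [Field F] [Field K] [Algebra F K] (h2 : (2 : F) = 0) {t p : F} {s : K}
    (hp : p ≠ 0) (hs : ∀ a b c : F, algebraMap F K a + algebraMap F K b * s +
      algebraMap F K c * s ^ 2 = 0 → a = 0 ∧ b = 0 ∧ c = 0)
    (he : (s + algebraMap F K t) ^ 3 + algebraMap F K p * (s + algebraMap F K t) +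
      algebraMap F K p = 0) :
    LinearIndependent F ![(1 : K), xi (algebraMap F K p) (s + algebraMap F K t) 3,
      (xi (algebraMap F K p) (s + algebraMap F K t) 3 +
        xi (algebraMap F K p) (s + algebraMap F K t) 4) / algebraMap F K p] := by
  have h2K : (2 : K) = 0 := by rw [← map_ofNat (algebraMap F K) 2, h2, map_zero]
  have hP : algebraMap F K p ≠ 0 := (_root_.map_ne_zero _).2 hp
  obtain ⟨x, hx⟩ : ∃ x, x = s + algebraMap F K t := ⟨_, rfl⟩
  obtain ⟨P, hPe⟩ : ∃ P, P = algebraMap F K p := ⟨_, rfl⟩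
  rw [← hx, ← hPe] at he ⊢
  rw [← hPe] at hP
  have q4 : x ^ 4 = P * (x ^ 2 + x) := by linear_combination x * he - P * (x ^ 2 + x) * h2K
  have x2 : xi P x 2 = x ^ 2 + x := by
    simp only [xi]; norm_num; field_simp; linear_combination q4
  have x3 : xi P x 3 = (P + 1) * x ^ 2 + P * x := by
    rw [xi, x2]; norm_num; linear_combination q4 + x ^ 3 * h2K
  have x4 : xi P x 4 = (P ^ 2 + P + 1) * x ^ 2 + (P ^ 2 + 1) * x := by
    rw [xi, x3]; norm_num; field_simp
    linear_combination (P + 1) ^ 2 * q4 +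
      ((P + 1) * P * x ^ 3 + P ^ 2 * x ^ 2 + P ^ 2 * x) * h2K
  rw [Fintype.linearIndependent_iff]
  intro g hg
  simp only [Fin.sum_univ_three, Matrix.cons_val_zero, Matrix.cons_val_one, Matrix.cons_val,
    Algebra.smul_def, x3, x4] at hg
  obtain ⟨c, hc⟩ : ∃ c, c = g 2 / p := ⟨_, rfl⟩
  have hc' : g 2 = c * p := by rw [hc]; field_simp
  rw [hc', map_mul, ← hPe, mul_assoc, mul_div_cancel₀ _ hP] at hg
  obtain ⟨e0, e1, e2⟩ := hs
    (g 0 + ((g 1 + c) * p + c * (p ^ 2 + 1)) * t + ((g 1 + c) * (p + 1) + c * (p ^ 2 + p + 1)) * t ^ 2)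
    ((g 1 + c) * p + c * (p ^ 2 + 1)) ((g 1 + c) * (p + 1) + c * (p ^ 2 + p + 1)) (by
      simp only [map_add, map_mul, map_pow, map_one, ← hPe]
      rw [hx] at hg
      linear_combination hg - ((algebraMap F K (g 1) + algebraMap F K c) * (P + 1) +
        algebraMap F K c * (P ^ 2 + P + 1)) * s * algebraMap F K t * h2K)
  have f1 : c = 0 := by linear_combination (p + 1) * e1 - p * e2
  have f2 : g 1 = 0 := by
    rw [f1] at e1
    exact (mul_eq_zero.1 (show g 1 * p = 0 by linear_combination e1)).resolve_right hp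
  have f3 : g 0 = 0 := by rw [e1, e2] at e0; linear_combination e0
  intro i
  fin_cases i
  · exact f3
  · exact f2
  · rw [f1, zero_mul] at hc'; exact hc'

theorem map_xi {F K : Type} [Field F] [Field K] (σ : F →+* K) (P x : F) (j : ℕ) :
    σ (xi P x j) = xi (σ P) (σ x) j := by
  induction j with
  | zero => rfl
  | succ j ih => rw [xi, xi, map_div₀, map_pow, map_pow, ih]

/-- Over every field of characteristic two there is a cubic extension of the rational function
field with three embeddings in the Laurent series field and a basis `1, y, z` of it whose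
Jacobi-Perron digit sequence is not eventually periodic. -/
theorem result (k : Type) [Field k] [CharP k 2] :
    ∃ (K : Type) (_ : Field K) (_ : Algebra (RatFunc k) K),
      Module.finrank (RatFunc k) K = 3 ∧
      Nat.card (K →ₐ[RatFunc k] LaurentSeries k) = 3 ∧
      ∃ (σ : K →ₐ[RatFunc k] LaurentSeries k) (y z : K),
        ipart (σ y) = 0 ∧ ipart (σ z) = 0 ∧
        LinearIndependent (RatFunc k) ![(1 : K), y, z] ∧
        ¬ ∃ N p : ℕ, 0 < p ∧ ∀ n : ℕ, N ≤ n →
          digit (step^[n + p] (σ y, σ z)) = digit (step^[n] (σ y, σ z)) := by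
  have : Fact (Irreducible (cub k)) := ⟨cub_irr k⟩
  have h0 := (cub_monic k).ne_zero
  obtain ⟨s, hs, hv⟩ := exists_root k
  have h2 := two_eq k (LaurentSeries k)
  have ht := tt_val k
  have one : Valued.v (1 : LaurentSeries k) = exp (0 : ℤ) := by simp
  obtain ⟨p, hp⟩ : ∃ p, p = tt k ^ 2 + tt k + 1 := ⟨_, rfl⟩
  have hPe : algebraMap (RatFunc k) (LaurentSeries k) p =
      algebraMap _ _ (tt k) ^ 2 + algebraMap _ _ (tt k) + 1 := by
    rw [hp, map_add, map_add, map_pow, map_one]
  have hP : Valued.v (algebraMap (RatFunc k) (LaurentSeries k) p) = exp (2 : ℤ) := by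
    rw [hPe]
    exact val_add (val_add (m := 2) (by simpa using val_pow ht 2) ht (by norm_num)) one (by norm_num)
  have pP : Pol (algebraMap (RatFunc k) (LaurentSeries k) p) := by
    have pt : Pol (algebraMap (RatFunc k) (LaurentSeries k) (tt k)) := by
      rw [tt_eq]; exact Pol.single (by norm_num)
    rw [hPe]; exact ((pt.pow 2).add pt).add Pol.one
  have hp0 : p ≠ 0 := fun e => ne_of_val hP (by rw [e, map_zero])
  have dep : ∀ (A : Type) [CommRing A] [Algebra (RatFunc k) A] (w : A), aeval w (cub k) = 0 →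
      (w + algebraMap _ A (tt k)) ^ 3 + algebraMap _ A p * (w + algebraMap _ A (tt k)) +
        algebraMap _ A p = 0 := by
    intro A _ _ w hw
    rw [aeval_cub] at hw
    rw [hp, map_add, map_add, map_pow, map_one]
    linear_combination hw + (algebraMap _ A (tt k) * w ^ 2 + 2 * algebraMap _ A (tt k) ^ 2 * w +
      algebraMap _ A (tt k) ^ 3 + algebraMap _ A (tt k) ^ 2 + algebraMap _ A (tt k)) * two_eq k A
  have he := dep _ s hs
  have hx : Valued.v (s + algebraMap (RatFunc k) (LaurentSeries k) (tt k)) = exp (0 : ℤ) := by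
    refine le_antisymm hv (not_lt.1 fun hlt => ?_)
    generalize s + algebraMap (RatFunc k) (LaurentSeries k) (tt k) = x at *
    have a1 : Valued.v (1 + x) = exp (0 : ℤ) := by
      rw [← one]; exact Valuation.map_add_eq_of_lt_left _ (by rwa [one])
    have a2 := val_mul hP a1
    have a3 : algebraMap (RatFunc k) (LaurentSeries k) p * (1 + x) = -x ^ 3 := by
      linear_combination he
    rw [a3, Valuation.map_neg, map_pow] at a2
    have a4 : Valued.v x ^ 3 ≤ 1 := pow_le_one' hv 3
    rw [a2, ← exp_zero, exp_le_exp] at a4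
    omega
  have hsv : Valued.v s = exp (1 : ℤ) := by
    have e : s = algebraMap (RatFunc k) (LaurentSeries k) (tt k) + (s + algebraMap _ _ (tt k)) := by
      linear_combination (-algebraMap (RatFunc k) (LaurentSeries k) (tt k)) * h2
    rw [e]; exact val_add ht hx (by norm_num)
  obtain ⟨σ, hσ⟩ : ∃ σ : AdjoinRoot (cub k) →ₐ[RatFunc k] LaurentSeries k,
      σ (AdjoinRoot.root (cub k)) = s :=
    ⟨AdjoinRoot.liftAlgHom (cub k) (Algebra.ofId _ _) s hs, by simp⟩
  have hy : ∀ j, σ (xi (algebraMap _ _ p) (AdjoinRoot.root (cub k) + algebraMap _ _ (tt k)) j) =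
      xi (algebraMap _ _ p) (s + algebraMap _ _ (tt k)) j := fun j => by
    have := map_xi (σ : AdjoinRoot (cub k) →+* LaurentSeries k) (algebraMap _ _ p)
      (AdjoinRoot.root (cub k) + algebraMap _ _ (tt k)) j
    rwa [RingHom.coe_coe, map_add, σ.commutes, σ.commutes, hσ] at this
  have v3 := xi_val hP hx 3
  have v4 := xi_val hP hx 4
  have x3 : ex 3 = 2 := rfl
  have x4 : ex 4 = 5 := rfl
  refine ⟨AdjoinRoot (cub k), inferInstance, inferInstance, ?_, card_three k hs hsv, σ, _, _, ?_, ?_,
    indep (t := tt k) (s := AdjoinRoot.root (cub k)) ?_ hp0 ?_ (dep _ _ (AdjoinRoot.aeval_eq _ |>.trans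
      (AdjoinRoot.mk_self))), ?_⟩
  · rw [(AdjoinRoot.powerBasis h0).finrank, AdjoinRoot.powerBasis_dim, cub_deg]
  · rw [hy]
    simpa using ipart_add Pol.zero (small v3 (by omega))
  · rw [map_div₀, map_add, hy, hy, σ.commutes]
    simpa using ipart_add Pol.zero (small (val_div (val_add v3 v4 (by omega)) hP) (by omega))
  · have h : (2 : k) = 0 := by exact_mod_cast CharP.cast_eq_zero k 2
    rw [← map_ofNat (algebraMap k (RatFunc k)) 2, h, map_zero]
  · intro a b c h
    have e : AdjoinRoot.mk (cub k) (C c * X ^ 2 + C b * X + C a) = 0 := by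
      simp only [map_add, map_mul, map_pow, AdjoinRoot.mk_C, AdjoinRoot.mk_X]
      rw [← AdjoinRoot.algebraMap_eq]
      linear_combination h
    have e1 := eq_zero_of_dvd_of_natDegree_lt (AdjoinRoot.mk_eq_zero.1 e)
      (by rw [cub_deg]; exact Nat.lt_succ_of_le natDegree_quadratic_le)
    have c2 := congrArg (fun q => q.coeff 2) e1
    have c1 := congrArg (fun q => q.coeff 1) e1
    have c0 := congrArg (fun q => q.coeff 0) e1
    simp only [coeff_add, coeff_C_mul, coeff_X_pow, coeff_X, coeff_C, coeff_zero] at c2 c1 c0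
    norm_num at c2 c1 c0
    exact ⟨c0, c1, c2⟩
  · rw [map_div₀, map_add, hy, hy, σ.commutes]
    exact orbit h2 hP pP hx he

end Pool.Agent.Results.MP_d07120_nt.FunctionField
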