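import Pool.Agent.P.MP_d07120_nt.Fin

/-!
A Lagrange-type theorem for the Jacobi-Perron algorithm in cubic fields: if the two other
conjugates of the first coordinate stay separated infinitely often, the expansion is eventually
periodic, and its cycle meets a finite set depending only on the module and the separation.
-/

set_option autoImplicit false
set_option linter.unusedSectionVars false

namespace Pool.Agent.Results.MP_d07120_nt.Separated

open Filter Pool.Agent.P.MP_d07120_nt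

/-- The Jacobi-Perron map on pairs of elements of `K`, integer parts taken in the embedding `σ`. -/
noncomputable def step {K : Type} [Field K] (σ : K →+* ℝ) (q : K × K) : K × K :=
  (q.2 / q.1 - (⌊σ (q.2 / q.1)⌋ : K), 1 / q.1 - (⌊σ (1 / q.1)⌋ : K))

section
variable {K : Type} [Field K] [NumberField K] {σ : K →+* ℝ} {τ₁ τ₂ : K →+* ℂ}

/-- good states -/
structure Good (σ : K →+* ℝ) (q : K × K) : Prop where
  y0 : 0 < σ q.1
  y1 : σ q.1 < 1
  z0 : 0 ≤ σ q.2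
  z1 : σ q.2 < 1
  ind : ∀ r s t : ℚ, (r : K) + s * q.1 + t * q.2 = 0 → r = 0 ∧ s = 0 ∧ t = 0

theorem step_fst (q : K × K) : σ (step σ q).1 = Int.fract (σ q.2 / σ q.1) := by
  simp only [step, map_sub, map_div₀, map_intCast, Int.self_sub_floor]

theorem step_snd (q : K × K) : σ (step σ q).2 = Int.fract (1 / σ q.1) := by
  simp only [step, map_sub, map_div₀, map_one, map_intCast, Int.self_sub_floor]

theorem Good.ne {q : K × K} (h : Good σ q) : q.1 ≠ 0 := by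
  intro e
  have := h.y0
  rw [e] at this
  simp at this

theorem Good.next {q : K × K} (h : Good σ q) : Good σ (step σ q) := by
  have hy := h.ne
  have ind : ∀ r s t : ℚ, (r : K) + s * (step σ q).1 + t * (step σ q).2 = 0 →
      r = 0 ∧ s = 0 ∧ t = 0 := by
    intro r s t e
    have e2 : ((t : ℚ) : K) + ((r - s * ⌊σ (q.2 / q.1)⌋ - t * ⌊σ (1 / q.1)⌋ : ℚ) : K) * q.1 +
        (s : K) * q.2 = q.1 * ((r : K) + s * (step σ q).1 + t * (step σ q).2) := by
      simp only [step]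
      push_cast
      field_simp
      ring
    rw [e, mul_zero] at e2
    obtain ⟨h1, h2, h3⟩ := h.ind _ _ _ e2
    rw [h1, h3] at h2
    exact ⟨by simpa using h2, h3, h1⟩
  refine ⟨?_, ?_, ?_, ?_, ind⟩
  · have h0 : 0 ≤ σ (step σ q).1 := by rw [step_fst]; exact Int.fract_nonneg _
    refine lt_of_le_of_ne h0 fun e => ?_
    have e2 : (step σ q).1 = 0 := by simpa using e.symm
    have := (ind 0 1 0 (by simp [e2])).2.1
    simp at this
  · rw [step_fst]; exact Int.fract_lt_one _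
  · rw [step_snd]; exact Int.fract_nonneg _
  · rw [step_snd]; exact Int.fract_lt_one _

theorem Good.iter {q : K × K} (h : Good σ q) (n : ℕ) : Good σ ((step σ)^[n] q) := by
  induction n with
  | zero => exact h
  | succ n ih => rw [Function.iterate_succ_apply']; exact ih.next

/-- the pivots -/
noncomputable def piv (σ : K →+* ℝ) (x : K) (q : K × K) : ℕ → K
  | 0 => x
  | n + 1 => piv σ x q n * ((step σ)^[n] q).1

/-- the digits -/
noncomputable def da (σ : K →+* ℝ) (q : K × K) (n : ℕ) : ℤ := ⌊σ (1 / ((step σ)^[n] q).1)⌋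

/-- the digits -/
noncomputable def db (σ : K →+* ℝ) (q : K × K) (n : ℕ) : ℤ :=
  ⌊σ (((step σ)^[n] q).2 / ((step σ)^[n] q).1)⌋

theorem Good.rec1 {q : K × K} (h : Good σ q) (x : K) (n : ℕ) :
    piv σ x q (n + 1) * ((step σ)^[n + 1] q).1 =
      piv σ x q n * ((step σ)^[n] q).2 - db σ q n * (piv σ x q n * ((step σ)^[n] q).1) := by
  have := (h.iter n).ne
  rw [Function.iterate_succ_apply']
  simp only [piv, step, db]
  field_simp

theorem Good.rec2 {q : K × K} (h : Good σ q) (x : K) (n : ℕ) :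
    piv σ x q (n + 1) * ((step σ)^[n + 1] q).2 =
      piv σ x q n - da σ q n * (piv σ x q n * ((step σ)^[n] q).1) := by
  have := (h.iter n).ne
  rw [Function.iterate_succ_apply']
  simp only [piv, step, da]
  field_simp

theorem Good.dig {q : K × K} (h : Good σ q) :
    Dig (fun n => (da σ q n : ℝ)) (fun n => (db σ q n : ℝ)) := by
  refine ⟨fun n => ?_, fun n => ?_, fun n => ?_⟩
  · have g := h.iter n
    have : (1 : ℤ) ≤ da σ q n := by
      rw [da, Int.le_floor, map_div₀, map_one, le_div_iff₀ g.y0]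
      simpa using g.y1.le
    exact_mod_cast this
  · have g := h.iter n
    have : (0 : ℤ) ≤ db σ q n := by
      rw [db, Int.floor_nonneg, map_div₀]
      exact div_nonneg g.z0 g.y0.le
    exact_mod_cast this
  · have g := h.iter n
    have : db σ q n ≤ da σ q n := by
      rw [db, da, map_div₀, map_div₀, map_one]
      exact Int.floor_le_floor (div_le_div_of_nonneg_right g.z1.le g.y0.le)
    exact_mod_cast this

theorem Good.piv_pos {q : K × K} (h : Good σ q) {x : K} (hx : 0 < σ x) (n : ℕ) :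
    0 < σ (piv σ x q n) := by
  induction n with
  | zero => exact hx
  | succ n ih => rw [piv, map_mul]; exact mul_pos ih (h.iter n).y0

theorem Good.int {q : K × K} (h : Good σ q) {x : K} (i0 : IsIntegral ℤ x)
    (i1 : IsIntegral ℤ (x * q.1)) (i2 : IsIntegral ℤ (x * q.2)) (n : ℕ) :
    IsIntegral ℤ (piv σ x q n) ∧ IsIntegral ℤ (piv σ x q n * ((step σ)^[n] q).1) ∧
      IsIntegral ℤ (piv σ x q n * ((step σ)^[n] q).2) := by
  have ic : ∀ k : ℤ, IsIntegral ℤ (k : K) := fun k => isIntegral_algebraMap (x := k)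
  induction n with
  | zero => exact ⟨i0, i1, i2⟩
  | succ n ih =>
    obtain ⟨j0, j1, j2⟩ := ih
    rw [h.rec1, h.rec2]
    exact ⟨j1, j2.sub ((ic _).mul j1), j0.sub ((ic _).mul j1)⟩

/-- the determinant of the conjugates -/
noncomputable def cdet (σ : K →+* ℝ) (τ₁ τ₂ : K →+* ℂ) (x0 x1 x2 : K) : ℂ :=
  (τ₁ x1 * τ₂ x2 - τ₁ x2 * τ₂ x1) * σ x0 + (τ₁ x2 * τ₂ x0 - τ₁ x0 * τ₂ x2) * σ x1 +
    (τ₁ x0 * τ₂ x1 - τ₁ x1 * τ₂ x0) * σ x2

theorem cdet_lin (x0 x1 x2 : K) (a0 a1 a2 b0 b1 b2 c0 c1 c2 : ℤ) :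
    cdet σ τ₁ τ₂ (a0 • x0 + a1 • x1 + a2 • x2) (b0 • x0 + b1 • x1 + b2 • x2)
      (c0 • x0 + c1 • x1 + c2 • x2) =
      ((a0 * (b1 * c2 - b2 * c1) - a1 * (b0 * c2 - b2 * c0) + a2 * (b0 * c1 - b1 * c0) : ℤ) : ℂ) *
        cdet σ τ₁ τ₂ x0 x1 x2 := by
  simp only [cdet, zsmul_eq_mul, map_add, map_mul, map_intCast]
  push_cast
  ring

theorem cdet_mem {x0 x1 x2 e0 e1 e2 : K} (h0 : e0 ∈ Submodule.span ℤ {x0, x1, x2})
    (h1 : e1 ∈ Submodule.span ℤ {x0, x1, x2}) (h2 : e2 ∈ Submodule.span ℤ {x0, x1, x2}) :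
    ∃ k : ℤ, cdet σ τ₁ τ₂ e0 e1 e2 = k * cdet σ τ₁ τ₂ x0 x1 x2 := by
  obtain ⟨a0, a1, a2, rfl⟩ := Submodule.mem_span_triple.1 h0
  obtain ⟨b0, b1, b2, rfl⟩ := Submodule.mem_span_triple.1 h1
  obtain ⟨c0, c1, c2, rfl⟩ := Submodule.mem_span_triple.1 h2
  exact ⟨_, cdet_lin ..⟩

theorem cdet_le {x0 x1 x2 e0 e1 e2 : K}
    (h : Submodule.span ℤ {x0, x1, x2} = Submodule.span ℤ {e0, e1, e2}) :
    ‖cdet σ τ₁ τ₂ x0 x1 x2‖ ≤ ‖cdet σ τ₁ τ₂ e0 e1 e2‖ := by
  obtain ⟨k, hk⟩ := cdet_mem (σ := σ) (τ₁ := τ₁) (τ₂ := τ₂) (x0 := x0) (x1 := x1) (x2 := x2)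
    (e0 := e0) (e1 := e1) (e2 := e2) (h ▸ Submodule.subset_span (by simp))
    (h ▸ Submodule.subset_span (by simp)) (h ▸ Submodule.subset_span (by simp))
  obtain ⟨l, hl⟩ := cdet_mem (σ := σ) (τ₁ := τ₁) (τ₂ := τ₂) (x0 := e0) (x1 := e1) (x2 := e2)
    (e0 := x0) (e1 := x1) (e2 := x2) (h ▸ Submodule.subset_span (by simp))
    (h ▸ Submodule.subset_span (by simp)) (h ▸ Submodule.subset_span (by simp))
  by_cases k0 : k = 0
  · rw [k0, Int.cast_zero, zero_mul] at hk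
    rw [hl, hk]
    simp
  · have h1 : (1 : ℝ) ≤ |(k : ℝ)| := by
      have : (1 : ℤ) ≤ |k| := Int.one_le_abs k0
      exact_mod_cast this
    rw [hk, norm_mul, Complex.norm_intCast]
    nlinarith [norm_nonneg (cdet σ τ₁ τ₂ x0 x1 x2)]

theorem cdet_smul (d : ℤ) (x0 x1 x2 : K) :
    cdet σ τ₁ τ₂ (d * x0) (d * x1) (d * x2) = (d : ℂ) ^ 3 * cdet σ τ₁ τ₂ x0 x1 x2 := by
  simp only [cdet, map_mul, map_intCast]
  push_cast
  ring

theorem Good.event (hE : Emb σ τ₁ τ₂) {q : K × K} (h : Good σ q) {x : K} (hx : 0 < σ x)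
    (i0 : IsIntegral ℤ x) (i1 : IsIntegral ℤ (x * q.1)) (i2 : IsIntegral ℤ (x * q.2)) {c ε : ℝ}
    (hε : 0 < ε) (hc : ‖cdet σ τ₁ τ₂ x (x * q.1) (x * q.2)‖ ≤ c) :
    ∀ᶠ n in atTop, ε ≤ ‖τ₁ ((step σ)^[n] q).1 / τ₂ ((step σ)^[n] q).1 - 1‖ →
      (step σ)^[n] q ∈ Small K (Rad (2 * c + 2) ε) := by
  set X0 : ℕ → K := fun n => piv σ x q n with hX0
  set X1 : ℕ → K := fun n => piv σ x q n * ((step σ)^[n] q).1 with hX1
  set X2 : ℕ → K := fun n => piv σ x q n * ((step σ)^[n] q).2 with hX2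
  have r0 : ∀ n, X0 (n + 1) = X1 n := fun n => rfl
  have r1 : ∀ n, X1 (n + 1) = X2 n - db σ q n * X1 n := fun n => h.rec1 x n
  have r2 : ∀ n, X2 (n + 1) = X0 n - da σ q n * X1 n := fun n => h.rec2 x n
  have hO : Orb (fun n => (da σ q n : ℝ)) (fun n => (db σ q n : ℝ)) (fun n => σ (X0 n))
      (fun n => σ (X1 n)) (fun n => σ (X2 n)) :=
    ⟨h.piv_pos hx, fun n => by
        simp only [hX1, map_mul]; exact mul_nonneg (h.piv_pos hx n).le (h.iter n).y0.le,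
      fun n => by simp only [hX2, map_mul]; exact mul_nonneg (h.piv_pos hx n).le (h.iter n).z0,
      fun n => by rw [r0], fun n => by rw [r1]; simp, fun n => by rw [r2]; simp⟩
  have hS : Sol (fun n => (((da σ q n : ℤ) : ℝ) : ℂ)) (fun n => (((db σ q n : ℤ) : ℝ) : ℂ))
      (fun n => τ₁ (X1 n) * τ₂ (X2 n) - τ₁ (X2 n) * τ₂ (X1 n))
      (fun n => τ₁ (X2 n) * τ₂ (X0 n) - τ₁ (X0 n) * τ₂ (X2 n))
      (fun n => τ₁ (X0 n) * τ₂ (X1 n) - τ₁ (X1 n) * τ₂ (X0 n)) := by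
    refine ⟨fun n => ?_, fun n => ?_, fun n => ?_⟩ <;>
      simp only [r0, r1, r2, map_sub, map_mul, map_intCast, Complex.ofReal_intCast] <;> ring
  have c0 : 0 ≤ c := (norm_nonneg _).trans hc
  filter_upwards [boundC h.dig hO hS] with n hn sep
  have e : ‖(τ₁ (X1 0) * τ₂ (X2 0) - τ₁ (X2 0) * τ₂ (X1 0)) * (σ (X0 0) : ℂ) +
      (τ₁ (X2 0) * τ₂ (X0 0) - τ₁ (X0 0) * τ₂ (X2 0)) * (σ (X1 0) : ℂ) +
      (τ₁ (X0 0) * τ₂ (X1 0) - τ₁ (X1 0) * τ₂ (X0 0)) * (σ (X2 0) : ℂ)‖ ≤ c := hc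
  obtain ⟨j0, j1, j2⟩ := h.int i0 i1 i2 n
  have g := h.iter n
  exact hE.small (x := piv σ x q n) (by positivity) hε j0 j1 j2 (h.piv_pos hx n) g.y0 g.y1.le
    g.z0 g.z1.le (hn.1.trans (by linarith)) (hn.2.1.trans (by linarith))
    (hn.2.2.trans (by linarith)) sep

theorem real_iter (q : K × K) (n : ℕ) :
    (fun q : ℝ × ℝ => (Int.fract (q.2 / q.1), Int.fract (1 / q.1)))^[n] (σ q.1, σ q.2) =
      (σ ((step σ)^[n] q).1, σ ((step σ)^[n] q).2) := by
  induction n with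
  | zero => rfl
  | succ n ih =>
    rw [Function.iterate_succ_apply', ih, Function.iterate_succ_apply', step_fst, step_snd]

end

theorem result (K : Type) [Field K] [NumberField K] (hK : Module.finrank ℚ K = 3)
    (σ : K →+* ℝ) (τ₁ τ₂ : K →+* ℂ) (h12 : τ₁ ≠ τ₂)
    (h1 : τ₁ ≠ Complex.ofRealHom.comp σ) (h2 : τ₂ ≠ Complex.ofRealHom.comp σ)
    (M : Submodule ℤ K) (ε : ℝ) (hε : 0 < ε) :
    ∃ S : Set (K × K), S.Finite ∧ ∀ x y z : K, 0 < σ x →
      0 < σ y → σ y < 1 → 0 < σ z → σ z < 1 → LinearIndependent ℚ ![(1 : K), y, z] →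
      Submodule.span ℤ {x, x * y, x * z} = M →
      (∃ᶠ n in Filter.atTop,
        ε ≤ ‖τ₁ ((step σ)^[n] (y, z)).1 / τ₂ ((step σ)^[n] (y, z)).1 - 1‖) →
      ∃ N p : ℕ, 0 < p ∧ (step σ)^[N] (y, z) ∈ S ∧
        (step σ)^[N + p] (y, z) = (step σ)^[N] (y, z) ∧ ∀ n : ℕ, N ≤ n →
          (fun q : ℝ × ℝ => (⌊q.2 / q.1⌋, ⌊1 / q.1⌋))
              ((fun q : ℝ × ℝ => (Int.fract (q.2 / q.1), Int.fract (1 / q.1)))^[n + p] (σ y, σ z))
            = (fun q : ℝ × ℝ => (⌊q.2 / q.1⌋, ⌊1 / q.1⌋))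
              ((fun q : ℝ × ℝ => (Int.fract (q.2 / q.1), Int.fract (1 / q.1)))^[n] (σ y, σ z)) := by
  classical
  have hE : Emb σ τ₁ τ₂ := ⟨hK, h12, h1, h2⟩
  by_cases hM : ∃ e0 e1 e2 : K, Submodule.span ℤ {e0, e1, e2} = M
  swap
  · exact ⟨∅, Set.finite_empty, fun x y z _ _ _ _ _ _ h _ => absurd ⟨_, _, _, h⟩ hM⟩
  obtain ⟨e0, e1, e2, rfl⟩ := hM
  obtain ⟨d, d0, hd⟩ := exists_integral_multiples ℤ ℚ ({e0, e1, e2} : Finset K)
  have ic : ∀ k : ℤ, IsIntegral ℤ (k : K) := fun k => isIntegral_algebraMap (x := k)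
  have hint : ∀ v ∈ Submodule.span ℤ ({e0, e1, e2} : Set K),
      IsIntegral ℤ (((d * d : ℤ) : K) * v) := by
    intro v hv
    obtain ⟨a0, a1, a2, rfl⟩ := Submodule.mem_span_triple.1 hv
    have e : ((d * d : ℤ) : K) * (a0 • e0 + a1 • e1 + a2 • e2) =
        (d : K) * ((a0 : K) * (d • e0) + (a1 : K) * (d • e1) + (a2 : K) * (d • e2)) := by
      simp only [zsmul_eq_mul]
      push_cast
      ring
    rw [e]
    exact (ic d).mul ((((ic _).mul (hd _ (by simp))).add ((ic _).mul (hd _ (by simp)))).add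
      ((ic _).mul (hd _ (by simp))))
  refine ⟨_, small_finite K
    (Rad (2 * (‖((d * d : ℤ) : ℂ) ^ 3‖ * ‖cdet σ τ₁ τ₂ e0 e1 e2‖) + 2) ε), ?_⟩
  intro x y z x0 y0 y1 z0 z1 hli hsp hfr
  have hG : Good σ (y, z) := by
    refine ⟨y0, y1, z0.le, z1, fun r s t e => ?_⟩
    have := Fintype.linearIndependent_iff.1 hli ![r, s, t]
      (by simpa [Fin.sum_univ_three, Rat.smul_def] using e)
    exact ⟨this 0, this 1, this 2⟩
  have dd : (0 : ℝ) < ((d * d : ℤ) : ℝ) := by exact_mod_cast mul_self_pos.2 d0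
  have ev := hG.event hE (x := ((d * d : ℤ) : K) * x)
    (by rw [map_mul, map_intCast]; exact mul_pos dd x0)
    (hint _ (hsp ▸ Submodule.subset_span (by simp)))
    (by rw [mul_assoc]; exact hint _ (hsp ▸ Submodule.subset_span (by simp)))
    (by rw [mul_assoc]; exact hint _ (hsp ▸ Submodule.subset_span (by simp))) hε
    (c := ‖((d * d : ℤ) : ℂ) ^ 3‖ * ‖cdet σ τ₁ τ₂ e0 e1 e2‖)
    (by
      rw [mul_assoc, mul_assoc, cdet_smul, norm_mul]
      exact mul_le_mul_of_nonneg_left (cdet_le hsp) (norm_nonneg _))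
  have hinf := (hfr.and_eventually ev).mono fun n hn => hn.2 hn.1
  obtain ⟨N, hN, N', -, hlt, heq⟩ := (Nat.frequently_atTop_iff_infinite.1 hinf).exists_lt_map_eq_of_mapsTo
    (f := fun n => (step σ)^[n] (y, z)) (fun n hn => hn) (small_finite K _)
  obtain ⟨p, rfl⟩ := Nat.exists_eq_add_of_le hlt.le
  refine ⟨N, p, by omega, hN, heq.symm, fun n hn => ?_⟩
  obtain ⟨k, rfl⟩ := Nat.exists_eq_add_of_le hn
  have e : (step σ)^[N + k + p] (y, z) = (step σ)^[N + k] (y, z) := by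
    rw [show N + k + p = k + (N + p) by ring, Function.iterate_add_apply, ← heq,
      ← Function.iterate_add_apply, add_comm k N]
  rw [real_iter (y, z), real_iter (y, z), e]

end Pool.Agent.Results.MP_d07120_nt.Separated
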